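import Pool.Agent.Helper857.E1
import Pool.Agent.Helper292.ForceCH

set_option autoImplicit false

open Set Metric Filter Topology
open Pool.Agent.Helper857

namespace Pool.Agent.Results.MP_53f9be_gt.UnderCH

/-! ### Approximate interpolation by entire functions -/

lemma exists_antitone (δ : ℕ → ℝ) (hδ : ∀ k, 0 < δ k) :
    ∃ D : ℕ → ℝ, (∀ k, 0 < D k) ∧ Antitone D ∧ ∀ k, D k ≤ δ k := by
  let D : ℕ → ℝ := fun k => Nat.rec (δ 0) (fun n r => min r (δ (n + 1))) k
  have h1 : ∀ k, D (k + 1) = min (D k) (δ (k + 1)) := fun _ => rfl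
  refine ⟨D, ?_, ?_, ?_⟩
  · intro k
    induction k with
    | zero => exact hδ 0
    | succ k ih => rw [h1]; exact lt_min ih (hδ _)
  · exact antitone_nat_of_succ_le fun k => by rw [h1]; exact min_le_left _ _
  · intro k
    cases k with
    | zero => exact le_rfl
    | succ k => rw [h1]; exact min_le_right _ _

/-- one step of the interpolation -/
lemma interp_step (p a : ℂ) (hp : p ≠ 0) {η : ℝ} (hη : 0 < η) (f : ℂ → ℂ) (hf : Differentiable ℂ f) :
    ∃ g : ℂ → ℂ, Differentiable ℂ g ∧ g p = a ∧ ∀ x, 2 * ‖x‖ ≤ ‖p‖ → ‖g x - f x‖ ≤ η := by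
  obtain ⟨N, hN⟩ := exists_pow_lt_of_lt_one (show 0 < η / (‖a - f p‖ + 1) by positivity)
    (by norm_num : (1 / 2 : ℝ) < 1)
  refine ⟨fun x => f x + (a - f p) * (x / p) ^ N, ?_, ?_, ?_⟩
  · exact hf.add (((differentiable_id.div_const p).pow N).const_mul _)
  · simp [hp]
  · intro x hx
    have hp' : 0 < ‖p‖ := norm_pos_iff.2 hp
    have h1 : ‖x / p‖ ≤ 1 / 2 := by
      rw [norm_div, div_le_iff₀ hp']
      linarith
    have h2 : ‖x / p‖ ^ N ≤ (1 / 2) ^ N := pow_le_pow_left₀ (norm_nonneg _) h1 N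
    have h3 : (1 / 2 : ℝ) ^ N * (‖a - f p‖ + 1) < η := by
      rwa [lt_div_iff₀ (by positivity)] at hN
    have h4 : 0 ≤ (1 / 2 : ℝ) ^ N := by positivity
    calc ‖f x + (a - f p) * (x / p) ^ N - f x‖ = ‖a - f p‖ * ‖x / p‖ ^ N := by
          rw [add_sub_cancel_left, norm_mul, norm_pow]
      _ ≤ ‖a - f p‖ * (1 / 2) ^ N := by gcongr
      _ ≤ η := by nlinarith [norm_nonneg (a - f p)]

lemma exists_interp (p a : ℕ → ℂ) (hp0 : 1 ≤ ‖p 0‖) (hp : ∀ k, 2 * ‖p k‖ ≤ ‖p (k + 1)‖)
    (δ : ℕ → ℝ) (hδ : ∀ k, 0 < δ k) :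
    ∃ f : ℂ → ℂ, Differentiable ℂ f ∧ ∀ k, ‖f (p k) - a k‖ ≤ δ k := by
  obtain ⟨D, hD0, hDa, hD⟩ := exists_antitone δ hδ
  have hmono : Monotone fun k => ‖p k‖ := monotone_nat_of_le_succ fun k => by
    have := hp k
    have := norm_nonneg (p k)
    linarith
  have hbig : ∀ k, (2 : ℝ) ^ k ≤ ‖p k‖ := by
    intro k
    induction k with
    | zero => simpa using hp0
    | succ k ih => rw [pow_succ]; linarith [hp k]
  have hne : ∀ k, p k ≠ 0 := fun k => by
    have h1 := hbig k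
    have h2 : (0 : ℝ) < 2 ^ k := by positivity
    exact norm_pos_iff.1 (h2.trans_le h1)
  have hη : ∀ k, 0 < D k / 2 / 2 ^ k := fun k => by have := hD0 k; positivity
  choose! g hg1 hg2 hg3 using fun k (f : ℂ → ℂ) (hf : Differentiable ℂ f) =>
    interp_step (p k) (a k) (hne k) (hη k) f hf
  let F : ℕ → ℂ → ℂ := fun n => Nat.rec (fun _ => 0) (fun k f => g k f) n
  have hFs : ∀ n, F (n + 1) = g n (F n) := fun _ => rfl
  have hFd : ∀ n, Differentiable ℂ (F n) := by
    intro n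
    induction n with
    | zero => exact differentiable_const 0
    | succ n ih => rw [hFs]; exact hg1 n _ ih
  have hFp : ∀ n, F (n + 1) (p n) = a n := fun n => by rw [hFs]; exact hg2 n _ (hFd n)
  have hF : ∀ n x, 2 * ‖x‖ ≤ ‖p n‖ → ‖F (n + 1) x - F n x‖ ≤ D n / 2 / 2 ^ n := fun n x hx => by
    rw [hFs]; exact hg3 n _ (hFd n) x hx
  have hdist : ∀ k x, 2 * ‖x‖ ≤ ‖p k‖ → ∀ n, dist (F (k + n) x) (F (k + (n + 1)) x) ≤
      D k / 2 / 2 ^ n := by
    intro k x hx n
    rw [dist_comm, dist_eq_norm]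
    refine (hF (k + n) x (hx.trans (hmono (Nat.le_add_right k n)))).trans ?_
    have h1 : D (k + n) ≤ D k := hDa (Nat.le_add_right k n)
    have h2 : (2 : ℝ) ^ n ≤ 2 ^ (k + n) := pow_le_pow_right₀ (by norm_num) (Nat.le_add_left n k)
    have h3 := hD0 (k + n)
    have h4 : 0 ≤ D k / 2 := by have := hD0 k; positivity
    gcongr
  have hlevel : ∀ x : ℂ, ∃ k, 2 * ‖x‖ ≤ ‖p k‖ := by
    intro x
    obtain ⟨k, hk⟩ := pow_unbounded_of_one_lt (2 * ‖x‖) (by norm_num : (1 : ℝ) < 2)
    exact ⟨k, hk.le.trans (hbig k)⟩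
  have hlim : ∀ x, ∃ y, Tendsto (fun n => F n x) atTop (𝓝 y) := by
    intro x
    obtain ⟨k, hk⟩ := hlevel x
    obtain ⟨y, hy⟩ := cauchySeq_tendsto_of_complete
      (cauchySeq_of_le_geometric_two (f := fun n => F (k + n) x) (hdist k x hk))
    refine ⟨y, ?_⟩
    rw [← tendsto_add_atTop_iff_nat k]
    simpa only [add_comm] using hy
  choose f hf using hlim
  have hnear : ∀ k x, 2 * ‖x‖ ≤ ‖p k‖ → ∀ n, ‖F (k + n) x - f x‖ ≤ D k / 2 ^ n := by
    intro k x hx n
    have h1 : Tendsto (fun n => F (k + n) x) atTop (𝓝 (f x)) := by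
      have := (tendsto_add_atTop_iff_nat k).2 (hf x)
      simpa only [add_comm] using this
    have := dist_le_of_le_geometric_two_of_tendsto (f := fun n => F (k + n) x) (hdist k x hx) h1 n
    rwa [dist_eq_norm] at this
  refine ⟨f, ?_, ?_⟩
  · intro x
    obtain ⟨k, hk⟩ := hlevel (‖x‖ + 1 : ℝ)
    have hunif : TendstoUniformlyOn (fun n => F (k + n)) f atTop (ball 0 (‖x‖ + 1)) := by
      rw [Metric.tendstoUniformlyOn_iff]
      intro ε hε
      obtain ⟨N, hN⟩ := exists_pow_lt_of_lt_one (show 0 < ε / D k from div_pos hε (hD0 k))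
        (by norm_num : (1 / 2 : ℝ) < 1)
      filter_upwards [eventually_ge_atTop N] with n hn y hy
      have hy' : 2 * ‖y‖ ≤ ‖p k‖ := by
        have h1 : ‖y‖ < ‖x‖ + 1 := by simpa using hy
        have h2 : ‖((‖x‖ + 1 : ℝ) : ℂ)‖ = ‖x‖ + 1 := by
          rw [Complex.norm_real, Real.norm_eq_abs, abs_of_nonneg (by positivity)]
        rw [h2] at hk
        linarith
      rw [dist_comm, dist_eq_norm]
      refine (hnear k y hy' n).trans_lt ?_
      rw [lt_div_iff₀ (hD0 k)] at hN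
      have h3 : (1 / 2 : ℝ) ^ n ≤ (1 / 2) ^ N := pow_le_pow_of_le_one (by norm_num) (by norm_num) hn
      have h4 : D k / 2 ^ n = (1 / 2) ^ n * D k := by
        rw [one_div, inv_pow]
        field_simp
      rw [h4]
      have h5 := hD0 k
      nlinarith
    have hd := differentiableOn_of_tendstoUniformlyOn_ball
      (fun n => (hFd (k + n)).differentiableOn) hunif
    exact hd.differentiableAt (isOpen_ball.mem_nhds (by simp))
  · intro k
    have h1 := hnear (k + 1) (p k) (hp k) 0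
    rw [add_zero, hFp, pow_zero, div_one, norm_sub_rev] at h1
    exact h1.trans ((hDa (Nat.le_succ k)).trans (hD k))

/-! ### Automorphisms -/

theorem IsAut.sMap {E : Type*} [NormedAddCommGroup E] [NormedSpace ℂ E] {h : E ≃ E}
    (hh : IsAut h) : SMap h := by
  refine ⟨hh.1, fun R e he => ⟨h.symm, hh.symm, fun x _ => ?_⟩⟩
  simp [he.le]

/-- exchange of the coordinates -/
noncomputable def swp : E2 ≃ E2 where
  toFun x := !₂[x 1, x 0]
  invFun x := !₂[x 1, x 0]
  left_inv := by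
    intro x
    ext i
    fin_cases i <;> simp
  right_inv := by
    intro x
    ext i
    fin_cases i <;> simp

theorem swp_zero (x : E2) : swp x 0 = x 1 := rfl
theorem swp_one (x : E2) : swp x 1 = x 0 := rfl

theorem isAut_swp : IsAut swp := by
  have h0 := differentiable_coord 0
  have h1 := differentiable_coord 1
  have h : Differentiable ℂ (swp : E2 → E2) := by
    rw [differentiable_euclidean]
    intro i
    fin_cases i
    · simp only [Fin.zero_eta, swp_zero]; exact h1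
    · simp only [Fin.mk_one, swp_one]; exact h0
  exact ⟨h, h⟩

/-- a shear -/
noncomputable def shear (f : ℂ → ℂ) : E2 ≃ E2 where
  toFun x := !₂[x 0, x 1 + f (x 0)]
  invFun x := !₂[x 0, x 1 - f (x 0)]
  left_inv := by
    intro x
    ext i
    fin_cases i <;> simp
  right_inv := by
    intro x
    ext i
    fin_cases i <;> simp

theorem shear_zero (f : ℂ → ℂ) (x : E2) : shear f x 0 = x 0 := rfl
theorem shear_one (f : ℂ → ℂ) (x : E2) : shear f x 1 = x 1 + f (x 0) := rfl
theorem shear_symm_zero (f : ℂ → ℂ) (x : E2) : (shear f).symm x 0 = x 0 := rfl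
theorem shear_symm_one (f : ℂ → ℂ) (x : E2) : (shear f).symm x 1 = x 1 - f (x 0) := rfl

theorem isAut_shear {f : ℂ → ℂ} (hf : Differentiable ℂ f) : IsAut (shear f) := by
  have h0 := differentiable_coord 0
  have h1 := differentiable_coord 1
  have h2 : Differentiable ℂ (fun x : E2 => f (x 0)) := hf.comp h0
  constructor
  · rw [differentiable_euclidean]
    intro i
    fin_cases i
    · simp only [Fin.zero_eta, shear_zero]; exact h0
    · simp only [Fin.mk_one, shear_one]; exact h1.add h2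
  · rw [differentiable_euclidean]
    intro i
    fin_cases i
    · simp only [Fin.zero_eta, shear_symm_zero]; exact h0
    · simp only [Fin.mk_one, shear_symm_one]; exact h1.sub h2

/-- A sequence which tends to infinity has, up to an exchange of the coordinates, an unbounded
first coordinate. -/
lemma exists_coord (z : ℕ → E2) (hz : Tendsto (fun n => ‖z n‖) atTop atTop) (i : Fin 2) :
    ∃ B : E2 ≃ E2, IsAut B ∧ ∀ R : ℝ, ∃ᶠ n in atTop, R ≤ ‖B (z n) i‖ := by
  by_contra hcon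
  push Not at hcon
  obtain ⟨R0, h0⟩ := hcon (Equiv.refl E2) isAut_refl
  obtain ⟨R1, h1⟩ := hcon swp isAut_swp
  have h2 : ∀ᶠ n in atTop, ‖z n‖ < R0 + R1 := by
    filter_upwards [h0, h1] with n hn0 hn1
    refine (norm_le_sum _).trans_lt ?_
    fin_cases i
    · simp only [Fin.zero_eta, Equiv.refl_apply, swp_zero] at hn0 hn1
      linarith
    · simp only [Fin.mk_one, Equiv.refl_apply, swp_one] at hn0 hn1
      linarith
  obtain ⟨n, hn1, hn2⟩ := (h2.and (hz.eventually_ge_atTop (R0 + R1))).exists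
  linarith

lemma exists_subseq (b : ℕ → ℝ) (hb : ∀ R : ℝ, ∃ᶠ n in atTop, R ≤ b n) :
    ∃ φ : ℕ → ℕ, StrictMono φ ∧ 2 ≤ b (φ 0) ∧ ∀ k, 2 * b (φ k) + 2 ≤ b (φ (k + 1)) := by
  have h : ∀ m : ℕ, ∃ n, m < n ∧ 2 * b m + 2 ≤ b n := by
    intro m
    obtain ⟨n, hn1, hn2⟩ := ((hb (2 * b m + 2)).and_eventually (eventually_gt_atTop m)).exists
    exact ⟨n, hn2, hn1⟩
  choose s hs1 hs2 using h
  obtain ⟨n0, hn0⟩ := (hb 2).exists
  let φ : ℕ → ℕ := fun k => Nat.rec n0 (fun _ m => s m) k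
  have hφ : ∀ k, φ (k + 1) = s (φ k) := fun _ => rfl
  refine ⟨φ, strictMono_nat_of_lt_succ fun k => by rw [hφ]; exact hs1 _, hn0, fun k => ?_⟩
  rw [hφ]
  exact hs2 _

/-- The extension lemma: there is a map in the class `SMap`, with range not dense, such that the
image of the given sequence has a cluster point. -/
theorem exists_cluster (z : ℕ → E2) : ∃ F : E2 → E2, SMap F ∧ ¬ Dense (range F) ∧
    ∃ p, MapClusterPt p atTop (F ∘ z) := by
  obtain ⟨G, hG, hGd⟩ := exists_fatouBieberbach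
  by_cases hz : ∃ q, MapClusterPt q atTop z
  · obtain ⟨q, hq⟩ := hz
    exact ⟨G, hG, hGd, G q, hq.continuousAt_comp hG.1.continuous.continuousAt⟩
  -- the sequence tends to infinity
  have hinf : ∀ w : ℕ → E2, (¬ ∃ q, MapClusterPt q atTop w) →
      Tendsto (fun n => ‖w n‖) atTop atTop := by
    intro w hw
    rw [Filter.tendsto_atTop]
    intro R
    by_contra hcon
    apply hw
    have hfr : ∃ᶠ n in atTop, w n ∈ closedBall (0 : E2) R := by
      rw [not_eventually] at hcon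
      refine hcon.mono fun n hn => ?_
      rw [mem_closedBall_zero_iff]
      exact (not_le.1 hn).le
    obtain ⟨q, _, hq⟩ := (isCompact_closedBall (0 : E2) R).exists_mapClusterPt_of_frequently hfr
    exact ⟨q, hq⟩
  have hz' := hinf z hz
  -- the target sequence
  obtain ⟨p, hp⟩ : (frontier (range G)).Nonempty := by
    have h1 : (range G).Nonempty := ⟨G 0, mem_range_self 0⟩
    have h2 : range G ≠ univ := fun h => hGd (by rw [h]; exact dense_univ)
    rw [nonempty_frontier_iff]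
    exact ⟨h1, h2⟩
  have hpr : p ∉ range G := by
    rw [hG.isOpenMap.isOpen_range.frontier_eq] at hp
    exact hp.2
  obtain ⟨v, hv, hvp⟩ := mem_closure_iff_seq_limit.1 hp.1
  choose w hw using hv
  have hwlim : Tendsto (fun n => G (w n)) atTop (𝓝 p) := by
    simpa only [hw] using hvp
  have hwinf : Tendsto (fun n => ‖w n‖) atTop atTop := by
    apply hinf
    rintro ⟨q, hq⟩
    apply hpr
    have h1 : MapClusterPt (G q) atTop (G ∘ w) :=
      hq.continuousAt_comp hG.1.continuous.continuousAt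
    refine ⟨q, ?_⟩
    have h2 : ClusterPt (G q) (𝓝 p) := ClusterPt.mono h1 hwlim
    exact eq_of_nhds_neBot h2
  -- coordinates
  obtain ⟨B₁, hB₁, hB₁'⟩ := exists_coord z hz' 0
  obtain ⟨B₂, hB₂, hB₂'⟩ := exists_coord w hwinf 1
  obtain ⟨φ, hφ, hφ0, hφs⟩ := exists_subseq (fun n => ‖B₁ (z n) 0‖) hB₁'
  obtain ⟨ψ, hψ, hψ0, hψs⟩ := exists_subseq (fun n => ‖B₂ (w n) 1‖) hB₂'
  have hG' : SMap (G ∘ B₂.symm) := hG.comp (IsAut.sMap hB₂.symm)
  have hG'c : Continuous (G ∘ B₂.symm) := hG'.1.continuous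
  -- the tolerances
  have hδ : ∀ k : ℕ, ∃ δ > 0, δ ≤ 1 / 4 ∧ ∀ b : E2, ‖b 0 - B₂ (w (ψ k)) 0‖ ≤ δ →
      ‖b 1 - B₂ (w (ψ k)) 1‖ ≤ δ →
      dist ((G ∘ B₂.symm) b) ((G ∘ B₂.symm) (B₂ (w (ψ k)))) ≤ 1 / ((k : ℝ) + 1) := by
    intro k
    obtain ⟨δ, hδ, h⟩ := Metric.continuous_iff.1 hG'c (B₂ (w (ψ k))) (1 / ((k : ℝ) + 1))
      (by positivity)
    refine ⟨min (1 / 4) (δ / 4), by positivity, min_le_left _ _, fun b h0 h1 => (h b ?_).le⟩
    rw [dist_eq_norm]
    refine (norm_le_sum _).trans_lt ?_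
    have h2 : ‖(b - B₂ (w (ψ k))) 0‖ ≤ δ / 4 := h0.trans (min_le_right _ _)
    have h3 : ‖(b - B₂ (w (ψ k))) 1‖ ≤ δ / 4 := h1.trans (min_le_right _ _)
    linarith
  choose δ hδ0 hδ4 hδ using hδ
  -- the first shear
  obtain ⟨f, hf, hfx⟩ := exists_interp (fun k => B₁ (z (φ k)) 0)
    (fun k => B₂ (w (ψ k)) 1 - B₁ (z (φ k)) 1) (by linarith) (fun k => by
      have := hφs k
      linarith) δ hδ0
  have hy : ∀ k, ‖(B₁ (z (φ k)) 1 + f (B₁ (z (φ k)) 0)) - B₂ (w (ψ k)) 1‖ ≤ δ k := by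
    intro k
    have h1 := hfx k
    have h2 : f (B₁ (z (φ k)) 0) - (B₂ (w (ψ k)) 1 - B₁ (z (φ k)) 1) =
      (B₁ (z (φ k)) 1 + f (B₁ (z (φ k)) 0)) - B₂ (w (ψ k)) 1 := by ring
    rw [h2] at h1
    exact h1
  have hup : ∀ k, ‖B₁ (z (φ k)) 1 + f (B₁ (z (φ k)) 0)‖ ≤ ‖B₂ (w (ψ k)) 1‖ + 1 / 4 := by
    intro k
    have h1 := norm_sub_norm_le (B₁ (z (φ k)) 1 + f (B₁ (z (φ k)) 0)) (B₂ (w (ψ k)) 1)
    have h2 := hy k
    have h3 := hδ4 k
    linarith
  have hlo : ∀ k, ‖B₂ (w (ψ k)) 1‖ - 1 / 4 ≤ ‖B₁ (z (φ k)) 1 + f (B₁ (z (φ k)) 0)‖ := by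
    intro k
    have h1 := norm_sub_norm_le (B₂ (w (ψ k)) 1) (B₁ (z (φ k)) 1 + f (B₁ (z (φ k)) 0))
    have h2 := hy k
    rw [norm_sub_rev] at h2
    have h3 := hδ4 k
    linarith
  -- the second shear
  obtain ⟨g, hg, hgx⟩ := exists_interp (fun k => B₁ (z (φ k)) 1 + f (B₁ (z (φ k)) 0))
    (fun k => B₂ (w (ψ k)) 0 - B₁ (z (φ k)) 0) (by
      have h1 := hlo 0
      have h2 : 2 ≤ ‖B₂ (w (ψ 0)) 1‖ := hψ0
      linarith) (fun k => by
      have h1 := hψs k
      have h2 := hup k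
      have h3 := hlo (k + 1)
      simp only at h1
      linarith) δ hδ0
  have hA : IsAut (((B₁.trans (shear f)).trans swp).trans ((shear g).trans swp)) :=
    ((hB₁.trans (isAut_shear hf)).trans isAut_swp).trans ((isAut_shear hg).trans isAut_swp)
  set A : E2 ≃ E2 := ((B₁.trans (shear f)).trans swp).trans ((shear g).trans swp) with hAdef
  have hA0 : ∀ x, A x 0 = B₁ x 0 + g (B₁ x 1 + f (B₁ x 0)) := fun x => rfl
  have hA1 : ∀ x, A x 1 = B₁ x 1 + f (B₁ x 0) := fun x => rfl
  have hclose : ∀ k, dist ((G ∘ B₂.symm) (A (z (φ k)))) ((G ∘ B₂.symm) (B₂ (w (ψ k)))) ≤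
      1 / ((k : ℝ) + 1) := by
    intro k
    apply hδ
    · rw [hA0]
      have h1 := hgx k
      have h2 : g (B₁ (z (φ k)) 1 + f (B₁ (z (φ k)) 0)) - (B₂ (w (ψ k)) 0 - B₁ (z (φ k)) 0) =
        B₁ (z (φ k)) 0 + g (B₁ (z (φ k)) 1 + f (B₁ (z (φ k)) 0)) - B₂ (w (ψ k)) 0 := by ring
      simp only at h1
      rw [h2] at h1
      exact h1
    · rw [hA1]
      exact hy k
  have hlim2 : Tendsto (fun k => (G ∘ B₂.symm) (B₂ (w (ψ k)))) atTop (𝓝 p) := by
    have h1 : Tendsto (fun k => G (w (ψ k))) atTop (𝓝 p) := hwlim.comp hψ.tendsto_atTop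
    simpa using h1
  have hlim3 : Tendsto (fun k => (G ∘ B₂.symm) (A (z (φ k)))) atTop (𝓝 p) := by
    rw [tendsto_iff_dist_tendsto_zero] at hlim2 ⊢
    have h1 := tendsto_one_div_add_atTop_nhds_zero_nat (𝕜 := ℝ)
    have h2 := h1.add hlim2
    rw [add_zero] at h2
    refine squeeze_zero (fun _ => dist_nonneg) (fun k => ?_) h2
    exact (dist_triangle _ _ _).trans (add_le_add (hclose k) le_rfl)
  refine ⟨(G ∘ B₂.symm) ∘ A, hG'.comp (IsAut.sMap hA), ?_, p, ?_⟩
  · have h1 : range ((G ∘ B₂.symm) ∘ A) = range G := by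
      rw [A.surjective.range_comp, B₂.symm.surjective.range_comp]
    rw [h1]
    exact hGd
  · exact MapClusterPt.of_comp hφ.tendsto_atTop hlim3.mapClusterPt

/-! ### Chains of maps with tasks -/

section tasks

variable {X : Type} {ι : Type} [LinearOrder ι]

/-- `g` extends the system `T` to the level `k`, all its members are in `S`, and it fulfils the
task of the level `k` -/
def ExtT (S : (X → X) → Prop) (Task : ι → (ι → X → X) → Prop) (k : ι) (T : ι → ι → X → X)
    (g : ι → X → X) : Prop :=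
  (∀ i < k, S (g i)) ∧ (∀ i j, i ≤ j → j < k → g j ∘ sys T i j = g i) ∧ Task k g

theorem extT_congr {S : (X → X) → Prop} {Task : ι → (ι → X → X) → Prop} {k : ι}
    {T T' : ι → ι → X → X} (h : ∀ j < k, T j = T' j) (g : ι → X → X) :
    ExtT S Task k T g ↔ ExtT S Task k T' g := by
  have h1 : ∀ i j, j < k → sys T i j = sys T' i j := by
    intro i j hj
    unfold sys
    rw [h j hj]
  unfold ExtT
  constructor
  · rintro ⟨a, b, c⟩
    exact ⟨a, fun i j hij hj => by rw [← h1 i j hj]; exact b i j hij hj, c⟩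
  · rintro ⟨a, b, c⟩
    exact ⟨a, fun i j hij hj => by rw [h1 i j hj]; exact b i j hij hj, c⟩

variable [WellFoundedLT ι]

open Classical in
noncomputable def stepTT (S : (X → X) → Prop) (Task : ι → (ι → X → X) → Prop) (k : ι)
    (rec : (j : ι) → j < k → ι → X → X) : ι → X → X :=
  if h : ∃ g, ExtT S Task k (fun j => if hj : j < k then rec j hj else fun _ => id) g then
    h.choose else fun _ => id

noncomputable def rawTT (S : (X → X) → Prop) (Task : ι → (ι → X → X) → Prop) : ι → ι → X → X :=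
  (wellFounded_lt (α := ι)).fix (stepTT S Task)

theorem rawTT_eq (S : (X → X) → Prop) (Task : ι → (ι → X → X) → Prop) (k : ι) :
    rawTT S Task k = stepTT S Task k (fun j _ => rawTT S Task j) := by
  unfold rawTT
  rw [WellFounded.fix_eq]

omit [WellFoundedLT ι] in
theorem coh_of_extT {S : (X → X) → Prop} {Task : ι → (ι → X → X) → Prop} (hid : S id) {k : ι}
    {T : ι → ι → X → X} (h : ∀ j < k, ExtT S Task j T (T j)) : Coh S k T := by
  intro i j l hij hjl hlk
  have hS : S (sys T i l) := by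
    rcases (le_trans hij hjl).lt_or_eq with h1 | h1
    · rw [sys_lt T h1]
      exact (h l hlk).1 i h1
    · rw [h1, sys_self]; exact hid
  refine ⟨?_, hS⟩
  rcases hjl.lt_or_eq with h1 | h1
  · rw [sys_lt T h1, sys_lt T (lt_of_le_of_lt hij h1)]
    exact (h l hlk).2.1 i j hij h1
  · rw [h1, sys_self]; rfl

theorem rawTT_ext {S : (X → X) → Prop} {Task : ι → (ι → X → X) → Prop} (hid : S id)
    (hcomp : ∀ f g, S f → S g → S (g ∘ f))
    (hlim : ∀ F : ℕ → X → X, (∀ n, S (F n)) →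
      ∃ G : ℕ → X → X, (∀ n, S (G n)) ∧ ∀ n, G (n + 1) ∘ F n = G n)
    (htask : ∀ (k : ι) (g : ι → X → X), ∃ F, S F ∧ Task k (fun i => F ∘ g i))
    (hcount : ∀ k : ι, (Iio k).Countable) (k : ι) :
    ExtT S Task k (rawTT S Task) (rawTT S Task k) := by
  induction k using (wellFounded_lt (α := ι)).induction with
  | _ k ih =>
    have hcoh : Coh S k (rawTT S Task) := coh_of_extT hid ih
    obtain ⟨g, hg1, hg2, -⟩ := exists_ext (F₀ := id) hcomp hid hlim (hcount k) hcoh
    obtain ⟨F, hF, hFt⟩ := htask k g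
    have hg : ExtT S Task k (rawTT S Task) (fun i => F ∘ g i) := by
      refine ⟨fun i hi => hcomp _ _ (hg1 i hi) hF, fun i j hij hj => ?_, hFt⟩
      rw [Function.comp_assoc, hg2 i j hij hj]
    have hcongr : ∀ g : ι → X → X, ExtT S Task k (rawTT S Task) g ↔
        ExtT S Task k (fun j => if hj : j < k then rawTT S Task j else fun _ => id) g := by
      intro g
      apply extT_congr
      intro j hj
      simp [hj]
    have hex : ∃ g, ExtT S Task k
        (fun j => if hj : j < k then rawTT S Task j else fun _ => id) g :=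
      ⟨_, (hcongr _).1 hg⟩
    rw [hcongr, rawTT_eq S Task k]
    unfold stepTT
    rw [dif_pos hex]
    exact hex.choose_spec

/-- a chain of maps which fulfils all the tasks -/
theorem exists_chainT {S : (X → X) → Prop} {Task : ι → (ι → X → X) → Prop} (hid : S id)
    (hcomp : ∀ f g, S f → S g → S (g ∘ f))
    (hlim : ∀ F : ℕ → X → X, (∀ n, S (F n)) →
      ∃ G : ℕ → X → X, (∀ n, S (G n)) ∧ ∀ n, G (n + 1) ∘ F n = G n)
    (htask : ∀ (k : ι) (g : ι → X → X), ∃ F, S F ∧ Task k (fun i => F ∘ g i))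
    (hcount : ∀ k : ι, (Iio k).Countable) (hmax : ∀ k : ι, ∃ l, k < l) :
    ∃ Φ : ι → ι → X → X, (∀ i, Φ i i = id) ∧ (∀ i j, i ≤ j → S (Φ i j)) ∧
      (∀ i j k, i ≤ j → j ≤ k → Φ j k ∘ Φ i j = Φ i k) ∧
      ∀ k, ∃ g, (∀ i < k, Φ i k = g i) ∧ Task k g := by
  have hext := rawTT_ext hid hcomp hlim htask hcount
  refine ⟨sys (rawTT S Task), sys_self _, fun i j hij => ?_, fun i j k hij hjk => ?_,
    fun k => ⟨rawTT S Task k, fun i hi => sys_lt _ hi, (hext k).2.2⟩⟩
  · obtain ⟨l, hl⟩ := hmax j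
    exact (coh_of_extT hid (fun m _ => hext m) i i j le_rfl hij hl).2
  · obtain ⟨l, hl⟩ := hmax k
    exact (coh_of_extT hid (fun m _ => hext m) i j k hij hjk hl).1

end tasks

/-! ### Bookkeeping -/

theorem mk_seq : Cardinal.mk (ℕ → E2) = Cardinal.continuum := by
  have h1 : Cardinal.mk E2 = Cardinal.continuum := by
    have h2 : Cardinal.mk E2 = Cardinal.mk (Fin 2 → ℂ) :=
      Cardinal.mk_congr (WithLp.equiv 2 (Fin 2 → ℂ))
    rw [h2]
    simp only [Cardinal.mk_pi, Cardinal.prod_const, Cardinal.mk_complex, Cardinal.mk_fin,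
      Cardinal.lift_id, Nat.cast_ofNat]
    exact_mod_cast Cardinal.power_nat_eq (n := 2) Cardinal.aleph0_le_continuum (by norm_num)
  simp [h1]

theorem exists_book (hCH : Cardinal.continuum.{0} = Cardinal.aleph 1) :
    ∃ φ : Om → Om × (ℕ → E2), ∀ i s, ∃ k, i < k ∧ φ k = (i, s) := by
  have hOm : Cardinal.mk Om = Cardinal.aleph 1 := by simp
  have hcard : Cardinal.mk Om = Cardinal.mk (Om × (Om × (ℕ → E2))) := by
    rw [Cardinal.mk_prod, Cardinal.mk_prod, Cardinal.lift_id, Cardinal.lift_id, Cardinal.lift_id,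
      mk_seq, hCH, hOm, Cardinal.aleph_mul_aleph, max_self, Cardinal.aleph_mul_aleph, max_self]
  obtain ⟨e⟩ := Cardinal.eq.1 hcard
  refine ⟨fun k => (e k).2, fun i s => ?_⟩
  by_contra hcon
  push Not at hcon
  have h1 : range (fun j : Om => e.symm (j, (i, s))) ⊆ Iic i := by
    rintro _ ⟨j, rfl⟩
    by_contra hlt
    rw [mem_Iic, not_le] at hlt
    exact hcon _ hlt (by simp)
  have h2 : (Iic i).Countable := by
    rw [← Iio_insert]
    exact (om_countable_Iio i).insert i
  have h3 : (range (fun j : Om => e.symm (j, (i, s)))).Countable := h2.mono h1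
  have h4 : Function.Injective (fun j : Om => e.symm (j, (i, s))) := by
    intro a b hab
    have := e.symm.injective hab
    exact congrArg Prod.fst this
  have h5 : Countable Om := by
    have h6 := h3.to_subtype
    exact (Equiv.ofInjective _ h4).injective.countable
  rw [← Cardinal.mk_le_aleph0_iff, hOm] at h5
  exact absurd h5 (by simp)

/-- Under CH there is a chain of copies of `ℂ²` which catches all the sequences. -/
theorem exists_chain_CH (hCH : Cardinal.continuum.{0} = Cardinal.aleph 1) :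
    ∃ c : Chain Om, (∀ i j, i < j → ¬ Function.Surjective (c.Φ i j)) ∧
      ∀ i (s : ℕ → E2), ∃ k, i < k ∧ ∃ p, MapClusterPt p atTop (c.Φ i k ∘ s) := by
  obtain ⟨φ, hφ⟩ := exists_book hCH
  obtain ⟨Φ, h1, h2, h3, h4⟩ := exists_chainT (ι := Om) (S := SMap (E := E2))
    (Task := fun k g => (∀ i < k, ¬ Function.Surjective (g i)) ∧
      ∃ p, MapClusterPt p atTop (g (φ k).1 ∘ (φ k).2)) sMap_id
    (fun f g hf hg => hg.comp hf) (fun F hF => exists_cocone hF)
    (fun k g => by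
      obtain ⟨F, hF, hd, p, hp⟩ := exists_cluster (g (φ k).1 ∘ (φ k).2)
      refine ⟨F, hF, fun i _ hs => hd ?_, p, hp⟩
      have h1 : Function.Surjective F := hs.of_comp
      rw [h1.range_eq]
      exact dense_univ) om_countable_Iio
    (fun k => by
      obtain ⟨l, hl⟩ := om_bounded {k} (countable_singleton k)
      exact ⟨l, hl k rfl⟩)
  refine ⟨⟨Φ, h1, h2, h3⟩, fun i j hij => ?_, fun i s => ?_⟩
  · obtain ⟨g, hg, hg1, -⟩ := h4 j
    change ¬ Function.Surjective (Φ i j)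
    rw [hg i hij]
    exact hg1 i hij
  · obtain ⟨k, hk, hks⟩ := hφ i s
    obtain ⟨g, hg, -, p, hp⟩ := h4 k
    refine ⟨k, hk, p, ?_⟩
    change MapClusterPt p atTop (Φ i k ∘ s)
    rw [hks] at hp
    rw [hg i hk]
    exact hp

/-! ### The manifold -/

theorem countablyCompact {c : Chain Om}
    (hc : ∀ i (s : ℕ → E2), ∃ k, i < k ∧ ∃ p, MapClusterPt p atTop (c.Φ i k ∘ s))
    (u : ℕ → c.M) : ∃ x, MapClusterPt x atTop u := by
  choose lev rep hrep using fun n => c.exists_rep (u n)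
  obtain ⟨i, hi⟩ := om_bounded (range lev) (countable_range lev)
  obtain ⟨k, hk, p, hp⟩ := hc i (fun n => c.Φ (lev n) i (rep n))
  refine ⟨c.inc k p, ?_⟩
  have h1 : c.inc k ∘ (c.Φ i k ∘ fun n => c.Φ (lev n) i (rep n)) = u := by
    funext n
    simp only [Function.comp_apply]
    rw [c.inc_comp hk.le, c.inc_comp (hi _ (mem_range_self n)).le, hrep]
  rw [← h1]
  exact hp.continuousAt_comp (c.inc_continuous k).continuousAt

theorem not_compactSpace {c : Chain Om} (hc : ∀ i j, i < j → ¬ Function.Surjective (c.Φ i j)) :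
    ¬ CompactSpace c.M := by
  intro hcomp
  have hne : Nonempty Om := om_nonempty
  obtain ⟨i, hi⟩ := (isCompact_univ : IsCompact (univ : Set c.M)).elim_directed_cover
    (fun i : Om => range (c.inc i)) (fun i => (c.inc_isOpenMap i).isOpen_range)
    (fun m _ => by
      obtain ⟨i, x, rfl⟩ := c.exists_rep m
      exact mem_iUnion.2 ⟨i, mem_range_self x⟩)
    (fun i j => ⟨max i j, by
      rintro _ ⟨x, rfl⟩
      exact ⟨_, c.inc_comp (le_max_left i j) x⟩, by
      rintro _ ⟨x, rfl⟩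
      exact ⟨_, c.inc_comp (le_max_right i j) x⟩⟩)
  obtain ⟨j, hj⟩ := om_bounded {i} (countable_singleton i)
  have hij : i < j := hj i rfl
  apply hc i j hij
  intro y
  obtain ⟨x, hx⟩ := hi (mem_univ (c.inc j y))
  refine ⟨x, c.inc_injective j ?_⟩
  rw [c.inc_comp hij.le, hx]

/-- **Main theorem.**  (A) is a theorem on forcing: some notion of forcing `P` of type `Type` forces,
below every condition, that `ω₁` is preserved and that the continuum hypothesis holds.  (B) is
proved from the usual axioms and the explicit hypothesis `2 ^ ℵ₀ = ℵ₁`: there is a connected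
Hausdorff complex-analytic manifold of complex dimension two in which every sequence has a cluster
point, and which is not compact. -/
theorem result :
    (∃ (P : Type) (_ : Preorder P), Nonempty P ∧ ∀ p : P,
      p ∈ Pool.Agent.Helper292.ForceCH.OmegaOnePreserved P ∧
      p ∈ Pool.Agent.Helper292.ForceCH.CHHolds P) ∧
    (Cardinal.continuum.{0} = Cardinal.aleph 1 →
      ∃ (M : Type) (_ : TopologicalSpace M) (_ : T2Space M)
        (_ : ChartedSpace (EuclideanSpace ℂ (Fin 2)) M),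
        IsManifold (modelWithCornersSelf ℂ (EuclideanSpace ℂ (Fin 2))) ⊤ M ∧
        ConnectedSpace M ∧
        (∀ u : ℕ → M, ∃ x : M, MapClusterPt x Filter.atTop u) ∧
        ¬ CompactSpace M) := by
  refine ⟨?_, fun hCH => ?_⟩
  · obtain ⟨P, hP, hne, h⟩ := Pool.Agent.Helper292.ForceCH.exists_forcing
    exact ⟨P, hP, hne, fun p => ⟨(h p).1, (h p).2.2⟩⟩
  · obtain ⟨c, hc1, hc2⟩ := exists_chain_CH hCH
    have hne : Nonempty Om := om_nonempty
    exact ⟨c.M, inferInstance, c.t2Space, inferInstance, c.isManifold, c.connectedSpace,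
      countablyCompact hc2, not_compactSpace hc1⟩

end Pool.Agent.Results.MP_53f9be_gt.UnderCH
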